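import Pool.Agent.MP_3ee8cb_gt.DQ.Spec

/-! The constants of the pinching theorem. -/

namespace Pool.Agent.MP_3ee8cb_gt.DRT

open Real

/-- The inequalities between the constants. -/
def Tab (n g₀ g r S la C : ℝ) : Prop := 2 * n / (n + 1) < g₀ ∧ g₀ < g ∧ g ≤ exp (2 * r) ∧
  0 < r ∧ 0 < S ∧ 0 < la ∧ 0 < S - S ^ 3 / (2 * (n + 2)) - r * (la + n / la) / 2 ∧
  (g + (g - 1) ^ 2 / (2 * g)) * (√(1 + S ^ 2) + S) ≤ C

theorem ex6 {x : ℝ} (h : 0 ≤ x) :
    1 + x + x ^ 2 / 2 + x ^ 3 / 6 + x ^ 4 / 24 + x ^ 5 / 120 ≤ exp x := by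
  have := Real.sum_le_exp_of_nonneg h 6
  simp only [Finset.sum_range_succ, Finset.sum_range_zero, Nat.factorial] at this
  norm_num at this
  linarith

theorem row (n g₀ g r S la L : ℝ) (h1 : 2 * n / (n + 1) < g₀) (h2 : g₀ < g) (hg : 1 ≤ g)
    (h3 : g ≤ 1 + 2 * r + (2 * r) ^ 2 / 2 + (2 * r) ^ 3 / 6 + (2 * r) ^ 4 / 24 + (2 * r) ^ 5 / 120)
    (hr : 0 < r) (hS : 0 < S) (hl : 0 < la)
    (h4 : 0 < S - S ^ 3 / (2 * (n + 2)) - r * (la + n / la) / 2) (hL : 0 ≤ L)
    (h5 : 1 + S ^ 2 ≤ L ^ 2) (h6 : (g + (g - 1) ^ 2 / (2 * g)) * (L + S) ≤ 0.42 * n + 1.1) :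
    ∃ g₀ g r S la : ℝ, Tab n g₀ g r S la (0.42 * n + 1.1) :=
  ⟨g₀, g, r, S, la, h1, h2, h3.trans (ex6 (by linarith)), hr, hS, hl, h4,
    le_trans (mul_le_mul_of_nonneg_left (by linarith [Real.sqrt_le_iff.2 ⟨hL, h5⟩])
      (by positivity)) h6⟩

theorem big (n : ℝ) (hn : 16 ≤ n) : ∃ g₀ g r S la : ℝ, Tab n g₀ g r S la (0.42 * n + 1.1) := by
  obtain ⟨q, hq, rfl⟩ : ∃ q : ℝ, 4 ≤ q ∧ n = q ^ 2 :=
    ⟨√n, Real.le_sqrt_of_sq_le (by linarith), (Real.sq_sqrt (by linarith)).symm⟩
  have q0 : 0 < q := by linarith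
  refine row _ 2 2.001 0.347 (0.38 * q) q (0.38 * q + 0.3) ?_ (by norm_num) (by norm_num)
    (by norm_num) (by norm_num) (by positivity) q0 ?_ (by positivity) (by nlinarith) ?_
  · rw [div_lt_iff₀ (by positivity)]
    linarith
  · have h1 : q ^ 2 / q = q := by field_simp
    have h2 : (0.38 * q) ^ 3 / (2 * (q ^ 2 + 2)) ≤ 0.0275 * q := by
      rw [div_le_iff₀ (by positivity)]
      nlinarith [pow_pos q0 3]
    rw [h1]
    linarith
  · have h1 : (2.001 + (2.001 - 1) ^ 2 / (2 * 2.001) : ℝ) ≤ 2.2514 := by norm_num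
    refine (mul_le_mul_of_nonneg_right h1 (by positivity)).trans ?_
    nlinarith [sq_nonneg (q - 4)]

/-- The table of constants. -/
theorem table (n : ℕ) (hn : 3 ≤ n) :
    ∃ g₀ g r S la : ℝ, Tab n g₀ g r S la (0.42 * n + 1.1) := by
  rcases le_or_gt 16 n with h | h
  · exact big n (by exact_mod_cast h)
  · interval_cases n
    · exact row _ 1.501 1.502 0.204 0.358 1.73 1.063 (by norm_num) (by norm_num) (by norm_num)
        (by norm_num) (by norm_num) (by norm_num) (by norm_num) (by norm_num) (by norm_num)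
        (by norm_num) (by norm_num)
    · exact row _ 1.601 1.602 0.236 0.482 2.0 1.111 (by norm_num) (by norm_num) (by norm_num)
        (by norm_num) (by norm_num) (by norm_num) (by norm_num) (by norm_num) (by norm_num)
        (by norm_num) (by norm_num)
    · exact row _ 1.667 1.668 0.256 0.587 2.24 1.16 (by norm_num) (by norm_num) (by norm_num)
        (by norm_num) (by norm_num) (by norm_num) (by norm_num) (by norm_num) (by norm_num)
        (by norm_num) (by norm_num)
    · exact row _ 1.715 1.716 0.271 0.684 2.45 1.212 (by norm_num) (by norm_num) (by norm_num)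
        (by norm_num) (by norm_num) (by norm_num) (by norm_num) (by norm_num) (by norm_num)
        (by norm_num) (by norm_num)
    · exact row _ 1.751 1.752 0.281 0.769 2.65 1.262 (by norm_num) (by norm_num) (by norm_num)
        (by norm_num) (by norm_num) (by norm_num) (by norm_num) (by norm_num) (by norm_num)
        (by norm_num) (by norm_num)
    · exact row _ 1.778 1.779 0.289 0.848 2.83 1.312 (by norm_num) (by norm_num) (by norm_num)
        (by norm_num) (by norm_num) (by norm_num) (by norm_num) (by norm_num) (by norm_num)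
        (by norm_num) (by norm_num)
    · exact row _ 1.801 1.802 0.295 0.921 3.0 1.36 (by norm_num) (by norm_num) (by norm_num)
        (by norm_num) (by norm_num) (by norm_num) (by norm_num) (by norm_num) (by norm_num)
        (by norm_num) (by norm_num)
    · exact row _ 1.819 1.82 0.3 0.989 3.16 1.407 (by norm_num) (by norm_num) (by norm_num)
        (by norm_num) (by norm_num) (by norm_num) (by norm_num) (by norm_num) (by norm_num)
        (by norm_num) (by norm_num)
    · exact row _ 1.834 1.835 0.304 1.054 3.32 1.453 (by norm_num) (by norm_num) (by norm_num)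
        (by norm_num) (by norm_num) (by norm_num) (by norm_num) (by norm_num) (by norm_num)
        (by norm_num) (by norm_num)
    · exact row _ 1.847 1.848 0.308 1.117 3.46 1.5 (by norm_num) (by norm_num) (by norm_num)
        (by norm_num) (by norm_num) (by norm_num) (by norm_num) (by norm_num) (by norm_num)
        (by norm_num) (by norm_num)
    · exact row _ 1.858 1.859 0.311 1.176 3.61 1.544 (by norm_num) (by norm_num) (by norm_num)
        (by norm_num) (by norm_num) (by norm_num) (by norm_num) (by norm_num) (by norm_num)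
        (by norm_num) (by norm_num)
    · exact row _ 1.867 1.868 0.313 1.23 3.74 1.586 (by norm_num) (by norm_num) (by norm_num)
        (by norm_num) (by norm_num) (by norm_num) (by norm_num) (by norm_num) (by norm_num)
        (by norm_num) (by norm_num)
    · exact row _ 1.876 1.877 0.315 1.282 3.87 1.626 (by norm_num) (by norm_num) (by norm_num)
        (by norm_num) (by norm_num) (by norm_num) (by norm_num) (by norm_num) (by norm_num)
        (by norm_num) (by norm_num)

/-- The tangential inequality from its values at the ends. -/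
theorem nu1_of {h e C : ℝ} (hh : 0 ≤ h) (he : 0 ≤ e) (hC : 10 / 9 < C)
    (h1 : 2 * h ^ 2 ≤ 0.9 * e * (1 + 2 * h)) (h2 : (h - 0.9 * e) ^ 2 ≤ 0.36 * e)
    (h3 : (h * C - e) ^ 2 ≤ 4 * e * (C - 1)) : DQ.Nu1 h e √C := by
  intro t x ht t1 x0 x1
  have C0 : 0 < C := by linarith
  rw [Real.sq_sqrt C0.le] at ht
  have t0 : 0 < t := pos_of_mul_pos_right (one_pos.trans_le ht) C0.le
  rcases le_total t 0.9 with h9 | h9
  · obtain ⟨a, ha, hac⟩ : ∃ a : ℝ, 0 < a ∧ a * C = 1 := ⟨C⁻¹, inv_pos.2 C0, inv_mul_cancel₀ C0.ne'⟩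
    have hat : a ≤ t := by nlinarith
    have ha9 : a < 0.9 := by nlinarith
    have h4 : (h - e * a) ^ 2 ≤ 4 * e * (a * (1 - a)) := by
      have h5 := mul_le_mul_of_nonneg_left h3 (sq_nonneg a)
      have e1 : a ^ 2 * (h * C - e) ^ 2 = (h * (a * C) - e * a) ^ 2 := by ring
      have e2 : a ^ 2 * (4 * e * (C - 1)) = 4 * e * (a * (a * C - a)) := by ring
      rwa [e1, e2, hac, mul_one] at h5
    have h6 : 0 ≤ (0.9 - a) * (4 * e * (t * (1 - t)) - (h - e * t) ^ 2) := by
      have b1 := mul_nonneg (sub_nonneg.2 h9) (sub_nonneg.2 h4)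
      have b2 := mul_nonneg (sub_nonneg.2 hat) (sub_nonneg.2 h2)
      have b3 := mul_nonneg (mul_nonneg (mul_nonneg (sub_nonneg.2 h9) (sub_nonneg.2 hat))
        (sub_nonneg.2 ha9.le)) (by positivity : 0 ≤ 4 * e + e ^ 2)
      nlinarith
    have h7 := nonneg_of_mul_nonneg_right h6 (by linarith)
    nlinarith [sq_nonneg (2 * x - (h - e * t))]
  · have x2 : x ≤ 2 * h * (1 - t) := by nlinarith [mul_nonneg hh (sq_nonneg (1 - t))]
    rcases le_total h (e * t) with h4 | h4
    · nlinarith [mul_nonneg (mul_nonneg he t0.le) (sub_nonneg.2 t1), sq_nonneg x,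
        mul_nonneg (sub_nonneg.2 h4) x0]
    · have h5 : 2 * h * (h - e * t) ≤ e * t := by
        nlinarith [mul_nonneg (mul_nonneg he (sub_nonneg.2 h9)) (by linarith : 0 ≤ 1 + 2 * h)]
      nlinarith [mul_le_mul_of_nonneg_left x2 (sub_nonneg.2 h4), sq_nonneg x,
        mul_le_mul_of_nonneg_left h5 (sub_nonneg.2 t1)]

theorem nu1 {n : ℝ} (hn : 3 ≤ n) : DQ.Nu1 (6 / n) (3.96 / (n - 1)) √(0.42 * n + 1.1) := by
  have n0 : 0 < n := by linarith
  have n1 : 0 < n - 1 := by linarith
  refine nu1_of (by positivity) (by positivity) (by linarith) ?_ ?_ ?_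
  · rw [← sub_nonneg]
    have : 0.9 * (3.96 / (n - 1)) * (1 + 2 * (6 / n)) - 2 * (6 / n) ^ 2 =
        (3.564 * n ^ 2 - 29.232 * n + 72) / (n ^ 2 * (n - 1)) := by
      field_simp
      ring
    rw [this]
    exact div_nonneg (by nlinarith [sq_nonneg (n - 4.1)]) (by positivity)
  · rw [← sub_nonneg]
    have : 0.36 * (3.96 / (n - 1)) - (6 / n - 0.9 * (3.96 / (n - 1))) ^ 2 =
        (1.4256 * n ^ 2 * (n - 1) - (2.436 * n - 6) ^ 2) / (n ^ 2 * (n - 1) ^ 2) := by
      field_simp
      ring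
    rw [this]
    refine div_nonneg ?_ (by positivity)
    nlinarith [mul_nonneg (sq_nonneg n) (sub_nonneg.2 hn), sq_nonneg (n - 4)]
  · rw [← sub_nonneg]
    have : 4 * (3.96 / (n - 1)) * (0.42 * n + 1.1 - 1) -
        (6 / n * (0.42 * n + 1.1) - 3.96 / (n - 1)) ^ 2 =
        (n ^ 2 * (0.3024 * n ^ 2 - 5.6736 * n + 31.6656) + 1.584 * n - 43.56) /
          (n ^ 2 * (n - 1) ^ 2) := by
      field_simp
      ring
    rw [this]
    refine div_nonneg ?_ (by positivity)
    have h1 : 5 ≤ 0.3024 * n ^ 2 - 5.6736 * n + 31.6656 := by nlinarith [sq_nonneg (n - 9.38)]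
    nlinarith [mul_le_mul_of_nonneg_left h1 (sq_nonneg n)]

end Pool.Agent.MP_3ee8cb_gt.DRT
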